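import Pool.Agent.Helper26.B1E.Sl2
import Pool.Agent.Helper34.B1.LAIn

/-! Block B1 of the project on MP_45a28a, end game, part 3: the trace identity (L1) and the point
with independent values (L2). -/

set_option autoImplicit false

namespace Pool.Agent.Helper26.B1E

open Module
open scoped BigOperators
open Pool.Agent.Helper34.B1 (LAIn)

/-- linear combinations of the three fields -/
noncomputable def G (g : Fin 3 → Module.End ℂ (Fin 5 → ℂ)) :
    (Fin 3 → ℂ) →ₗ[ℂ] Module.End ℂ (Fin 5 → ℂ) := Fintype.linearCombination ℂ g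

/-- the adjoint action in coordinates -/
noncomputable def adL (s : Fin 3 → Fin 3 → Fin 3 → ℂ) (a : Fin 3 → ℂ) :
    (Fin 3 → ℂ) →ₗ[ℂ] (Fin 3 → ℂ) := Matrix.toLin' (Matrix.of fun k j => ∑ i, a i * s i j k)

/-- a kernel vector of degree at most two of a singular matrix of linear forms -/
private theorem ker_vec (M : Matrix (Fin 3) (Fin 3) (MvPolynomial (Fin 5) ℂ))
    (hM : ∀ k r, (M k r).IsHomogeneous 1) (hdet : M.det = 0) :
    ∃ d ≤ 2, ∃ α : Fin 3 → MvPolynomial (Fin 5) ℂ, α ≠ 0 ∧ (∀ r, (α r).IsHomogeneous d) ∧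
      ∀ k, ∑ r, M k r * α r = 0 := by
  rw [Matrix.det_fin_three] at hdet
  by_cases h1 : ∃ i j, (fun r : Fin 3 => M i (r + 1) * M j (r + 2) - M i (r + 2) * M j (r + 1)) ≠ 0
  · obtain ⟨i, j, hij⟩ := h1
    refine ⟨2, le_rfl, _, hij, ?_, ?_⟩
    · intro r
      exact ((hM _ _).mul (hM _ _)).sub ((hM _ _).mul (hM _ _))
    · intro k
      rw [Fin.sum_univ_three]
      have a1 : (0 : Fin 3) + 1 = 1 := rfl
      have a2 : (0 : Fin 3) + 2 = 2 := rfl
      have a3 : (1 : Fin 3) + 1 = 2 := rfl
      have a4 : (1 : Fin 3) + 2 = 0 := rfl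
      have a5 : (2 : Fin 3) + 1 = 0 := rfl
      have a6 : (2 : Fin 3) + 2 = 1 := rfl
      simp only [a1, a2, a3, a4, a5, a6]
      fin_cases k <;> fin_cases i <;> fin_cases j <;>
        simp only [Fin.zero_eta, Fin.mk_one, Fin.reduceFinMk] <;>
        first
          | ring1
          | linear_combination hdet
          | linear_combination -hdet
  · push Not at h1
    by_cases h2 : ∃ k, (M k 0 ≠ 0 ∨ M k 1 ≠ 0) ∨ M k 2 ≠ 0
    · obtain ⟨k, hk⟩ := h2
      have hc : ∀ j, M k 0 * M j 1 = M k 1 * M j 0 ∧ M k 0 * M j 2 = M k 2 * M j 0 ∧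
          M k 1 * M j 2 = M k 2 * M j 1 := by
        intro j
        have e := h1 k j
        have e0 := congrFun e 0
        have e1 := congrFun e 1
        have e2 := congrFun e 2
        simp only [Fin.isValue, Pi.zero_apply] at e0 e1 e2
        have a1 : (0 : Fin 3) + 1 = 1 := rfl
        have a2 : (0 : Fin 3) + 2 = 2 := rfl
        have a3 : (1 : Fin 3) + 1 = 2 := rfl
        have a4 : (1 : Fin 3) + 2 = 0 := rfl
        have a5 : (2 : Fin 3) + 1 = 0 := rfl
        have a6 : (2 : Fin 3) + 2 = 1 := rfl
        rw [a1, a2] at e0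
        rw [a3, a4] at e1
        rw [a5, a6] at e2
        refine ⟨by linear_combination e2, by linear_combination -e1, by linear_combination e0⟩
      rcases hk with hk | hk
      · -- `(q, -p, 0)`
        refine ⟨1, by norm_num, ![M k 1, - M k 0, 0], ?_, ?_, ?_⟩
        · intro h0
          have e0 := congrFun h0 0
          have e1 := congrFun h0 1
          simp only [Matrix.cons_val_zero, Matrix.cons_val_one, Pi.zero_apply,
            neg_eq_zero] at e0 e1
          rcases hk with hk | hk
          · exact hk e1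
          · exact hk e0
        · intro r
          fin_cases r
          · exact hM _ _
          · exact (hM _ _).neg
          · exact MvPolynomial.isHomogeneous_zero _ _ _
        · intro j
          rw [Fin.sum_univ_three]
          simp only [Matrix.cons_val_zero, Matrix.cons_val_one, Matrix.cons_val]
          linear_combination -(hc j).1
      · by_cases h0 : M k 0 = 0
        · by_cases h01 : M k 1 = 0
          · refine ⟨1, by norm_num, ![M k 2, 0, - M k 0], ?_, ?_, ?_⟩
            · intro h3
              have e0 := congrFun h3 0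
              simp only [Matrix.cons_val_zero, Pi.zero_apply] at e0
              exact hk e0
            · intro r
              fin_cases r
              · exact hM _ _
              · exact MvPolynomial.isHomogeneous_zero _ _ _
              · exact (hM _ _).neg
            · intro j
              rw [Fin.sum_univ_three]
              simp only [Matrix.cons_val_zero, Matrix.cons_val_one, Matrix.cons_val]
              linear_combination -(hc j).2.1
          · refine ⟨1, by norm_num, ![0, M k 2, - M k 1], ?_, ?_, ?_⟩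
            · intro h3
              have e0 := congrFun h3 1
              simp only [Matrix.cons_val_one, Matrix.cons_val_zero, Pi.zero_apply] at e0
              exact hk e0
            · intro r
              fin_cases r
              · exact MvPolynomial.isHomogeneous_zero _ _ _
              · exact hM _ _
              · exact (hM _ _).neg
            · intro j
              rw [Fin.sum_univ_three]
              simp only [Matrix.cons_val_zero, Matrix.cons_val_one, Matrix.cons_val]
              linear_combination -(hc j).2.2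
        · refine ⟨1, by norm_num, ![M k 2, 0, - M k 0], ?_, ?_, ?_⟩
          · intro h3
            have e0 := congrFun h3 0
            simp only [Matrix.cons_val_zero, Pi.zero_apply] at e0
            exact hk e0
          · intro r
            fin_cases r
            · exact hM _ _
            · exact MvPolynomial.isHomogeneous_zero _ _ _
            · exact (hM _ _).neg
          · intro j
            rw [Fin.sum_univ_three]
            simp only [Matrix.cons_val_zero, Matrix.cons_val_one, Matrix.cons_val]
            linear_combination -(hc j).2.1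
    · push Not at h2
      refine ⟨0, by norm_num, ![1, 0, 0], ?_, ?_, ?_⟩
      · intro h3
        have e0 := congrFun h3 0
        simp only [Matrix.cons_val_zero, Pi.zero_apply] at e0
        exact one_ne_zero e0
      · intro r
        fin_cases r
        · exact MvPolynomial.isHomogeneous_one _ _
        · exact MvPolynomial.isHomogeneous_zero _ _ _
        · exact MvPolynomial.isHomogeneous_zero _ _ _
      · intro k
        rw [Fin.sum_univ_three]
        simp only [Matrix.cons_val_zero, Matrix.cons_val_one, Matrix.cons_val]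
        rw [(h2 k).1.1]
        ring

variable {g : Fin 3 → Module.End ℂ (Fin 5 → ℂ)} {s : Fin 3 → Fin 3 → Fin 3 → ℂ}
  {S U : Submodule ℂ (Fin 5 → ℂ)}

theorem G_apply (a : Fin 3 → ℂ) : G g a = ∑ k, a k • g k := by
  unfold G
  rw [Fintype.linearCombination_apply]

theorem G_apply' (a : Fin 3 → ℂ) (y : Fin 5 → ℂ) : G g a y = ∑ k, a k • g k y := by
  rw [G_apply, LinearMap.sum_apply]
  rfl

theorem adL_apply (a b : Fin 3 → ℂ) (k : Fin 3) :
    adL s a b k = ∑ j, (∑ i, a i * s i j k) * b j := by
  unfold adL
  rw [Matrix.toLin'_apply]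
  rfl

theorem adL_trace (a : Fin 3 → ℂ) :
    LinearMap.trace ℂ (Fin 3 → ℂ) (adL s a) = ∑ i, a i * ∑ j, s i j j := by
  unfold adL
  rw [Matrix.trace_toLin'_eq, Matrix.trace]
  simp only [Matrix.diag_apply, Matrix.of_apply, Finset.mul_sum]
  rw [Finset.sum_comm]

section
variable (h : LAIn g s S U)
include h

theorem G_br (a b : Fin 3 → ℂ) (y : Fin 5 → ℂ) :
    G g a (G g b y) - G g b (G g a y) = G g (adL s a b) y := by
  have h1 : ∀ i j, g i (g j y) - g j (g i y) = ∑ k, s i j k • g k y := by
    intro i j
    have h2 := LinearMap.congr_fun (h.br i j) y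
    rw [LinearMap.sum_apply] at h2
    exact h2
  rw [G_apply' a (G g b y), G_apply' b (G g a y), G_apply' (adL s a b) y]
  have e1 : ∑ k, a k • g k (G g b y) = ∑ i, ∑ j, (a i * b j) • g i (g j y) := by
    apply Finset.sum_congr rfl
    intro i _
    rw [G_apply', map_sum, Finset.smul_sum]
    apply Finset.sum_congr rfl
    intro j _
    rw [map_smul, smul_smul]
  have e2 : ∑ k, b k • g k (G g a y) = ∑ i, ∑ j, (a i * b j) • g j (g i y) := by
    rw [Finset.sum_comm]
    apply Finset.sum_congr rfl
    intro i _
    rw [G_apply', map_sum, Finset.smul_sum]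
    apply Finset.sum_congr rfl
    intro j _
    rw [map_smul, smul_smul, mul_comm]
  rw [e1, e2, ← Finset.sum_sub_distrib]
  have e3 : ∀ i, ∑ j, (a i * b j) • g i (g j y) - ∑ j, (a i * b j) • g j (g i y) =
      ∑ j, ∑ k, (a i * b j * s i j k) • g k y := by
    intro i
    rw [← Finset.sum_sub_distrib]
    apply Finset.sum_congr rfl
    intro j _
    rw [← smul_sub, h1, Finset.smul_sum]
    apply Finset.sum_congr rfl
    intro k _
    rw [smul_smul]
  simp only [e3, adL_apply, Finset.sum_mul, Finset.sum_smul]
  calc ∑ i, ∑ j, ∑ k, (a i * b j * s i j k) • g k y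
      = ∑ i, ∑ k, ∑ j, (a i * b j * s i j k) • g k y :=
        Finset.sum_congr rfl fun i _ => Finset.sum_comm
    _ = ∑ k, ∑ i, ∑ j, (a i * b j * s i j k) • g k y := Finset.sum_comm
    _ = ∑ k, ∑ j, ∑ i, (a i * b j * s i j k) • g k y :=
        Finset.sum_congr rfl fun k _ => Finset.sum_comm
    _ = _ := by
        apply Finset.sum_congr rfl; intro k _
        apply Finset.sum_congr rfl; intro j _
        apply Finset.sum_congr rfl; intro i _
        congr 1
        ring

theorem G_inj {a : Fin 3 → ℂ} (ha : G g a = 0) : a = 0 := by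
  by_contra h0
  have h1 := h.rk a h0
  rw [← G_apply, ha, LinearMap.range_zero, finrank_bot] at h1
  omega

theorem G_SU (a : Fin 3 → ℂ) {x : Fin 5 → ℂ} (hx : x ∈ S) : G g a x ∈ U := by
  rw [G_apply']
  exact Submodule.sum_mem _ fun k _ => Submodule.smul_mem _ _ (h.gS k x hx)

theorem G_trace (a : Fin 3 → ℂ) :
    LinearMap.trace ℂ (Fin 5 → ℂ) (G g a) = LinearMap.trace ℂ (Fin 3 → ℂ) (adL s a) := by
  rw [adL_trace, G_apply, map_sum]
  apply Finset.sum_congr rfl
  intro i _
  rw [map_smul, h.tr1, smul_eq_mul]

theorem adL_self (a : Fin 3 → ℂ) : adL s a a = 0 := by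
  apply G_inj h
  apply LinearMap.ext
  intro y
  rw [← G_br h, sub_self]
  rfl

/-- (L1): the fields have trace zero on `V / S` -/
theorem tr_zero {t e4 e5 : Fin 5 → ℂ} {fs f4 f5 : (Fin 5 → ℂ) →ₗ[ℂ] ℂ}
    (hfr : Fr U S t e4 e5 fs f4 f5) (a : Fin 3 → ℂ) : f4 (G g a e4) + f5 (G g a e5) = 0 := by
  classical
  let T : (Fin 3 → ℂ) →ₗ[ℂ] ℂ :=
    f4.comp ((LinearMap.applyₗ e4).comp (G g)) + f5.comp ((LinearMap.applyₗ e5).comp (G g))
  have hT : ∀ b, T b = f4 (G g b e4) + f5 (G g b e5) := fun b => rfl
  have hle : Submodule.span ℂ {a : Fin 3 → ℂ | ∃ x ∈ S, (∑ k, a k • g k) x = 0 ∧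
      Submodule.span ℂ (Set.range fun k => g k x) = U} ≤ LinearMap.ker T := by
    rw [Submodule.span_le]
    rintro b ⟨x, hxS, hbx, hsp⟩
    rw [← G_apply] at hbx
    show T b = 0
    rw [hT]
    by_cases hb0 : b = 0
    · rw [hb0, map_zero]; simp
    let bU := finBasisOfFinrankEq ℂ U h.fU
    let v : Fin 5 → ℂ := bU 0
    let w : Fin 5 → ℂ := bU 1
    have hv : v ∈ U := (bU 0).2
    have hw : w ∈ U := (bU 1).2
    have hvw : LinearIndependent ℂ ![v, w] := by
      rw [LinearIndependent.pair_iff]
      intro p q hpq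
      have h1 : p • bU 0 + q • bU 1 = 0 := by
        apply Subtype.ext
        exact hpq
      have h2 := bU.linearIndependent
      rw [Fintype.linearIndependent_iff] at h2
      have h3 := h2 ![p, q] (by rw [Fin.sum_univ_two]; exact h1)
      exact ⟨h3 0, h3 1⟩
    have hspan : ∀ y ∈ U, ∃ p q : ℂ, y = p • v + q • w := by
      intro y hy
      have h1 := bU.sum_repr ⟨y, hy⟩
      rw [Fin.sum_univ_two] at h1
      refine ⟨bU.repr ⟨y, hy⟩ 0, bU.repr ⟨y, hy⟩ 1, ?_⟩
      have h2 := congrArg Subtype.val h1
      exact h2.symm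
    -- the evaluation at `x`
    have hev : ∀ y ∈ U, ∃ c : Fin 3 → ℂ, G g c x = y := by
      intro y hy
      rw [← hsp] at hy
      obtain ⟨c, hc⟩ := (Submodule.mem_span_range_iff_exists_fun ℂ).mp hy
      exact ⟨c, by rw [G_apply']; exact hc⟩
    obtain ⟨b1, hb1⟩ := hev v hv
    obtain ⟨b2, hb2⟩ := hev w hw
    have hli : LinearIndependent ℂ ![b, b1, b2] := by
      rw [Fintype.linearIndependent_iff]
      intro c hc
      simp only [Fin.sum_univ_three, Matrix.cons_val_zero, Matrix.cons_val_one,
        Matrix.cons_val] at hc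
      have h1 := congrArg (fun z => G g z x) hc
      simp only [map_add, map_smul, LinearMap.add_apply, LinearMap.smul_apply, map_zero,
        LinearMap.zero_apply] at h1
      rw [hbx, hb1, hb2, smul_zero, zero_add] at h1
      obtain ⟨h2, h3⟩ := LinearIndependent.pair_iff.mp hvw _ _ h1
      rw [h2, h3, zero_smul, zero_smul, add_zero, add_zero] at hc
      have h4 := (smul_eq_zero.mp hc).resolve_right hb0
      intro i
      fin_cases i
      · exact h4
      · exact h2
      · exact h3
    let B := basisOfLinearIndependentOfCardEqFinrank hli (by simp)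
    have hB : ⇑B = ![b, b1, b2] := coe_basisOfLinearIndependentOfCardEqFinrank _ _
    have hB0 : B 0 = b := by rw [hB]; rfl
    have hB1 : B 1 = b1 := by rw [hB]; rfl
    have hB2 : B 2 = b2 := by rw [hB]; rfl
    obtain ⟨p, q, hp⟩ := hspan _ (G_SU h b (h.US hv))
    obtain ⟨p', q', hq⟩ := hspan _ (G_SU h b (h.US hw))
    -- coefficients of `adL b b1`, `adL b b2`
    have hcoef : ∀ (c : Fin 3 → ℂ) (r r' : ℂ), G g c x = r • v + r' • w →
        B.repr c 1 = r ∧ B.repr c 2 = r' := by
      intro c r r' hc
      have h1 := B.sum_repr c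
      rw [Fin.sum_univ_three, hB0, hB1, hB2] at h1
      have h2 := congrArg (fun z => G g z x) h1
      simp only [map_add, map_smul, LinearMap.add_apply, LinearMap.smul_apply] at h2
      rw [hbx, hb1, hb2, smul_zero, zero_add, hc] at h2
      have h3 : (B.repr c 1 - r) • v + (B.repr c 2 - r') • w = 0 := by
        have : (B.repr c 1 - r) • v + (B.repr c 2 - r') • w =
          ((B.repr c 1) • v + (B.repr c 2) • w) - (r • v + r' • w) := by module
        rw [this, h2, sub_self]
      obtain ⟨h4, h5⟩ := LinearIndependent.pair_iff.mp hvw _ _ h3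
      exact ⟨by linear_combination h4, by linear_combination h5⟩
    have hG1 : G g (adL s b b1) x = p • v + q • w := by
      rw [← G_br h, hbx, hb1, map_zero, sub_zero]
      exact hp
    have hG2 : G g (adL s b b2) x = p' • v + q' • w := by
      rw [← G_br h, hbx, hb2, map_zero, sub_zero]
      exact hq
    have htr : LinearMap.trace ℂ (Fin 3 → ℂ) (adL s b) = p + q' := by
      rw [LinearMap.trace_eq_matrix_trace ℂ B, Matrix.trace]
      simp only [Fin.sum_univ_three, Matrix.diag_apply, LinearMap.toMatrix_apply]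
      rw [hB0, hB1, hB2, adL_self h, B.repr.map_zero, (hcoef _ _ _ hG1).1, (hcoef _ _ _ hG2).2]
      simp
    have h5 := hfr.trace (by simp) hv hw hvw (G g b) hp hq
    rw [G_trace h, htr, ((hfr.mU _).mp (G_SU h b hfr.hs)).1] at h5
    linear_combination -h5
  have h1 : a ∈ LinearMap.ker T := by
    rw [h.st] at hle
    exact hle Submodule.mem_top
  exact h1

/-- (L2): a point with independent values modulo `U` -/
theorem exists_pt : ∃ x : Fin 5 → ℂ, ∀ a : Fin 3 → ℂ, G g a x ∈ U → a = 0 := by
  classical
  have hQ : finrank ℂ ((Fin 5 → ℂ) ⧸ S) = 2 := by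
    have h1 := S.finrank_quotient_add_finrank
    rw [h.fS] at h1
    simp at h1
    omega
  obtain ⟨t, e4, e5, fs, f4, f5, hfr, -⟩ := exists_fr (by simp) h.fS h.fU h.US
    (finBasisOfFinrankEq ℂ _ hQ)
  by_contra hcon
  push Not at hcon
  let F : Fin 3 → ((Fin 5 → ℂ) →ₗ[ℂ] ℂ) := ![fs, f4, f5]
  let W : Fin 3 → (Fin 5 → ℂ) := ![t, e4, e5]
  have hFW : ∀ r r', F r (W r') = if r = r' then 1 else 0 := by
    intro r r'
    fin_cases r <;> fin_cases r' <;>
      simp [F, W, hfr.ss, hfr.s4, hfr.s5, hfr.f44, hfr.f45, hfr.f54, hfr.f55, hfr.f4s, hfr.f5s]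
  have hU : ∀ y, y ∈ U ↔ ∀ r, F r y = 0 := by
    intro y
    rw [hfr.mU, Fin.forall_fin_succ, Fin.forall_fin_succ, Fin.forall_fin_one]
    rfl
  have hdec : ∀ y : Fin 5 → ℂ, y = ∑ i, y i • (Pi.single i 1 : Fin 5 → ℂ) := by
    intro y
    funext j
    simp [Finset.sum_apply, Pi.single_apply]
  have hF : ∀ r y, F r y = ∑ i, y i * F r (Pi.single i 1) := by
    intro r y
    conv_lhs => rw [hdec y]
    rw [map_sum]
    apply Finset.sum_congr rfl
    intro i _
    rw [map_smul, smul_eq_mul]
  let M : Matrix (Fin 3) (Fin 3) (MvPolynomial (Fin 5) ℂ) := Matrix.of fun k r =>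
    ∑ l, MvPolynomial.C (F r (g k (Pi.single l 1))) * MvPolynomial.X l
  have hMe : ∀ (x : Fin 5 → ℂ) k r, MvPolynomial.eval x (M k r) = F r (g k x) := by
    intro x k r
    have e1 : M k r = ∑ l, MvPolynomial.C (F r (g k (Pi.single l 1))) * MvPolynomial.X l := rfl
    rw [e1, map_sum]
    conv_rhs => rw [hdec x]
    rw [map_sum, map_sum]
    apply Finset.sum_congr rfl
    intro l _
    rw [map_mul, MvPolynomial.eval_C, MvPolynomial.eval_X, map_smul, map_smul, smul_eq_mul, mul_comm]
  have hMh : ∀ k r, (M k r).IsHomogeneous 1 := by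
    intro k r
    have e1 : M k r = ∑ l, MvPolynomial.C (F r (g k (Pi.single l 1))) * MvPolynomial.X l := rfl
    rw [e1]
    apply MvPolynomial.IsHomogeneous.sum
    intro l _
    exact (MvPolynomial.isHomogeneous_X ℂ l).C_mul _
  have hdet : M.det = 0 := by
    apply MvPolynomial.funext
    intro x
    rw [map_zero, RingHom.map_det]
    obtain ⟨a, ha, ha0⟩ := hcon x
    apply Matrix.exists_vecMul_eq_zero_iff.mp
    refine ⟨a, ha0, ?_⟩
    funext r
    have h1 := (hU _).mp ha r
    rw [G_apply', map_sum] at h1
    simp only [Matrix.vecMul, dotProduct, RingHom.mapMatrix_apply, Matrix.map_apply,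
      Pi.zero_apply]
    rw [← h1]
    apply Finset.sum_congr rfl
    intro k _
    rw [hMe, map_smul, smul_eq_mul]
  obtain ⟨d, hd, α, hα0, hαh, hα⟩ := ker_vec M hMh hdet
  have h1 := h.ne d hd (fun i => ∑ r, α r * MvPolynomial.C (F r (Pi.single i 1))) ?_ ?_
  · apply hα0
    funext r
    have h2 : ∑ i, (∑ r, α r * MvPolynomial.C (F r (Pi.single i 1))) *
        MvPolynomial.C (W r i) = α r := by
      have h3 : ∀ r', ∑ i, (α r' * MvPolynomial.C (F r' (Pi.single i 1))) *
          MvPolynomial.C (W r i) = α r' * MvPolynomial.C (F r' (W r)) := by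
        intro r'
        rw [hF r' (W r), map_sum, Finset.mul_sum]
        apply Finset.sum_congr rfl
        intro i _
        rw [map_mul]; ring
      simp only [Finset.sum_mul]
      rw [Finset.sum_comm, Finset.sum_congr rfl (fun r' _ => h3 r')]
      simp only [hFW]
      rw [Finset.sum_eq_single r]
      · rw [if_pos rfl]; simp
      · intro b _ hb
        rw [if_neg hb]; simp
      · intro hr; exact absurd (Finset.mem_univ _) hr
    rw [← h2, Pi.zero_apply]
    apply Finset.sum_eq_zero
    intro i _
    have h4 := congrFun h1 i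
    rw [Pi.zero_apply] at h4
    rw [h4, zero_mul]
  · intro i
    apply MvPolynomial.IsHomogeneous.sum
    intro r _
    have h5 := (hαh r).mul (MvPolynomial.isHomogeneous_C (Fin 5) (F r (Pi.single i 1)))
    rwa [add_zero] at h5
  · intro k
    rw [← hα k]
    have h6 : ∀ r, M k r * α r = ∑ i, (α r * MvPolynomial.C (F r (Pi.single i 1))) *
        ∑ l, MvPolynomial.C (g k (Pi.single l 1) i) * MvPolynomial.X l := by
      intro r
      have e1 : M k r = ∑ l, MvPolynomial.C (F r (g k (Pi.single l 1))) * MvPolynomial.X l := rfl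
      rw [e1]
      simp only [hF r (g k _), map_sum, map_mul, Finset.sum_mul, Finset.mul_sum]
      rw [Finset.sum_comm]
      apply Finset.sum_congr rfl
      intro i _
      apply Finset.sum_congr rfl
      intro l _
      ring
    rw [Finset.sum_congr rfl (fun r _ => h6 r), Finset.sum_comm]
    apply Finset.sum_congr rfl
    intro i _
    rw [Finset.sum_mul]

end

end Pool.Agent.Helper26.B1E
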