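import Pool.Agent.Helper26.B1E.Base

/-! Block B1 of the project on MP_45a28a, end game, part 4: (L3), (L4) and `LA_end`. -/

set_option autoImplicit false

namespace Pool.Agent.Helper26.B1E

open Module
open scoped BigOperators
open Pool.Agent.Helper34.B1 (LAIn)

variable {g : Fin 3 → Module.End ℂ (Fin 5 → ℂ)} {s : Fin 3 → Fin 3 → Fin 3 → ℂ}
  {S U : Submodule ℂ (Fin 5 → ℂ)}

/-- change of the lifts -/
theorem Fr.adjust {t e4 e5 : Fin 5 → ℂ} {fs f4 f5 : (Fin 5 → ℂ) →ₗ[ℂ] ℂ}
    (hfr : Fr U S t e4 e5 fs f4 f5) (α β : ℂ) :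
    Fr U S t (e4 + α • t) (e5 + β • t) (fs - α • f4 - β • f5) f4 f5 := by
  have h1 := hfr.f4s
  have h2 := hfr.f5s
  refine ⟨hfr.hs, ?_, hfr.mS, ?_, ?_, ?_, ?_, ?_, ?_, ?_⟩
  · intro y
    rw [hfr.mU]
    simp only [LinearMap.sub_apply, LinearMap.smul_apply, smul_eq_mul]
    constructor
    · rintro ⟨a1, a2, a3⟩
      refine ⟨by rw [a1, a2, a3]; ring, a2, a3⟩
    · rintro ⟨a1, a2, a3⟩
      rw [a2, a3] at a1
      refine ⟨by linear_combination a1, a2, a3⟩
  · simp [h1, h2, hfr.ss]
  · simp [h1, h2, hfr.ss, hfr.s4, hfr.f44, hfr.f54]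
  · simp [h1, h2, hfr.ss, hfr.s5, hfr.f45, hfr.f55]
  · simp [h1, hfr.f44]
  · simp [h1, hfr.f45]
  · simp [h2, hfr.f54]
  · simp [h2, hfr.f55]

/-- three functionals without common zero take all values -/
private theorem surj3 (p q r : (Fin 3 → ℂ) →ₗ[ℂ] ℂ) (h : ∀ a, p a = 0 → q a = 0 → r a = 0 → a = 0)
    (x y z : ℂ) : ∃ a, p a = x ∧ q a = y ∧ r a = z := by
  let L : (Fin 3 → ℂ) →ₗ[ℂ] (Fin 3 → ℂ) := LinearMap.pi ![p, q, r]
  have hL : ∀ a, L a = ![p a, q a, r a] := by
    intro a
    funext i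
    fin_cases i <;> rfl
  have hinj : Function.Injective L := by
    rw [← LinearMap.ker_eq_bot, LinearMap.ker_eq_bot']
    intro a ha
    rw [hL] at ha
    exact h a (congrFun ha 0) (congrFun ha 1) (congrFun ha 2)
  obtain ⟨a, ha⟩ := LinearMap.injective_iff_surjective.mp hinj ![x, y, z]
  rw [hL] at ha
  exact ⟨a, congrFun ha 0, congrFun ha 1, congrFun ha 2⟩

section
variable (h : LAIn g s S U)
include h

/-- the final contradiction -/
theorem core {t e4 e5 : Fin 5 → ℂ} {fs f4 f5 : (Fin 5 → ℂ) →ₗ[ℂ] ℂ}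
    (hfr : Fr U S t e4 e5 fs f4 f5) (e k : Fin 3 → ℂ)
    (hH4 : G g k e4 - e4 ∈ U) (hH5 : G g k e5 + e5 ∈ U) (hE4 : G g e e4 ∈ S)
    (hE5 : G g e e5 - e4 ∈ S) {x : Fin 5 → ℂ} (hx : ∀ a : Fin 3 → ℂ, G g a x ∈ U → a = 0) :
    False := by
  classical
  have hUS := h.US
  have hSU : ∀ (a : Fin 3 → ℂ) (y : Fin 5 → ℂ), y ∈ S → G g a y ∈ U := fun a y hy => G_SU h a hy
  have fU : ∀ y ∈ U, fs y = 0 := fun y hy => ((hfr.mU y).mp hy).1
  -- values in `S` from the values on `e4`, `e5`
  have inS : ∀ a : Fin 3 → ℂ, G g a e4 ∈ S → G g a e5 ∈ S → ∀ y, G g a y ∈ S := by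
    intro a h4 h5 y
    have h1 : y = (y - (fs y • t + f4 y • e4 + f5 y • e5)) + (fs y • t + f4 y • e4 + f5 y • e5) := by
      abel
    rw [h1, map_add, map_add, map_add, map_smul, map_smul, map_smul]
    refine S.add_mem (hUS (hSU _ _ (hUS (hfr.dec y)))) (S.add_mem (S.add_mem
      (S.smul_mem _ (hUS (hSU _ _ hfr.hs))) (S.smul_mem _ h4)) (S.smul_mem _ h5))
  have inU : ∀ a : Fin 3 → ℂ, (∀ y, G g a y ∈ S) → fs (G g a e4) = 0 → fs (G g a e5) = 0 →
      ∀ y, G g a y ∈ U := by
    intro a hS h4 h5 y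
    have h1 : y = (y - (fs y • t + f4 y • e4 + f5 y • e5)) + (fs y • t + f4 y • e4 + f5 y • e5) := by
      abel
    have h4' : G g a e4 ∈ U := (hfr.mU _).mpr ⟨h4, (hfr.mS _).mp (hS _)⟩
    have h5' : G g a e5 ∈ U := (hfr.mU _).mpr ⟨h5, (hfr.mS _).mp (hS _)⟩
    rw [h1, map_add, map_add, map_add, map_smul, map_smul, map_smul]
    refine U.add_mem (hSU _ _ (hUS (hfr.dec y))) (U.add_mem (U.add_mem
      (U.smul_mem _ (hSU _ _ hfr.hs)) (U.smul_mem _ h4')) (U.smul_mem _ h5'))
  -- brackets with `k` at `e4` and `e5`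
  have b4 : ∀ a : Fin 3 → ℂ, G g (adL s k a) e4 - (G g k (G g a e4) - G g a e4) ∈ U := by
    intro a
    rw [← G_br h]
    have e1 : G g k e4 = e4 + (G g k e4 - e4) := by abel
    have e2 : G g a (G g k e4) = G g a e4 + G g a (G g k e4 - e4) := by
      rw [← map_add, ← e1]
    have e3 : G g k (G g a e4) - G g a (G g k e4) - (G g k (G g a e4) - G g a e4) =
        - G g a (G g k e4 - e4) := by
      rw [e2]; abel
    rw [e3]
    exact U.neg_mem (hSU _ _ (hUS hH4))
  have b5 : ∀ a : Fin 3 → ℂ, G g (adL s k a) e5 - (G g k (G g a e5) + G g a e5) ∈ U := by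
    intro a
    rw [← G_br h]
    have e1 : G g k e5 = - e5 + (G g k e5 + e5) := by abel
    have e2 : G g a (G g k e5) = - G g a e5 + G g a (G g k e5 + e5) := by
      rw [← map_neg, ← map_add, ← e1]
    have e3 : G g k (G g a e5) - G g a (G g k e5) - (G g k (G g a e5) + G g a e5) =
        - G g a (G g k e5 + e5) := by
      rw [e2]; abel
    rw [e3]
    exact U.neg_mem (hSU _ _ (hUS hH5))
  -- `n = [k, e] - 2 e` maps into `S`
  have hn : ∀ y, G g (adL s k e - (2 : ℂ) • e) y ∈ S := by
    apply inS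
    · rw [map_sub, map_smul]
      simp only [LinearMap.sub_apply, LinearMap.smul_apply]
      have e1 : G g (adL s k e) e4 - (2 : ℂ) • G g e e4 =
          (G g (adL s k e) e4 - (G g k (G g e e4) - G g e e4)) + G g k (G g e e4) -
            (3 : ℂ) • G g e e4 := by module
      rw [e1]
      exact S.sub_mem (S.add_mem (hUS (b4 e)) (hUS (hSU _ _ hE4))) (S.smul_mem _ hE4)
    · rw [map_sub, map_smul]
      simp only [LinearMap.sub_apply, LinearMap.smul_apply]
      have e0 : G g k (G g e e5) = G g k (G g e e5 - e4) + (G g k e4 - e4) + e4 := by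
        rw [map_sub]; abel
      have e1 : G g (adL s k e) e5 - (2 : ℂ) • G g e e5 =
          (G g (adL s k e) e5 - (G g k (G g e e5) + G g e e5)) + G g k (G g e e5 - e4) +
            (G g k e4 - e4) - (G g e e5 - e4) := by
        rw [e0]; module
      rw [e1]
      exact S.sub_mem (S.add_mem (S.add_mem (hUS (b5 e)) (hUS (hSU _ _ hE5))) (hUS hH4)) hE5
  -- if `[k, e'] = 2 e'` then `e'` preserves the frame
  have gd : ∀ e' : Fin 3 → ℂ, G g e' e4 ∈ S → G g e' e5 - e4 ∈ S → adL s k e' = (2 : ℂ) • e' →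
      fs (G g e' e4) = 0 ∧ fs (G g e' e5) = 0 := by
    intro e' h4 h5 hbr
    constructor
    · have e1 := b4 e'
      rw [hbr, map_smul, LinearMap.smul_apply] at e1
      have e2 := fU _ e1
      rw [map_sub, map_sub, map_smul, fU _ (hSU k _ h4), smul_eq_mul] at e2
      linear_combination (1 / 3) * e2
    · have e1 := b5 e'
      rw [hbr, map_smul, LinearMap.smul_apply] at e1
      have e2 := fU _ e1
      have e3 : G g k (G g e' e5) = G g k (G g e' e5 - e4) + (G g k e4 - e4) + e4 := by
        rw [map_sub]; abel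
      rw [e3, map_sub, map_add, map_add, map_add, map_smul, fU _ (hSU k _ h5), fU _ hH4,
        hfr.s4, smul_eq_mul] at e2
      linear_combination e2
  by_cases hN : ∃ z : Fin 3 → ℂ, z ≠ 0 ∧ ∀ y, G g z y ∈ S
  · -- (L4)
    obtain ⟨z, hz0, hz⟩ := hN
    have hzx : fs (G g z x) ≠ 0 := by
      intro h0
      apply hz0
      apply hx
      exact (hfr.mU _).mpr ⟨h0, (hfr.mS _).mp (hz x)⟩
    have hone : ∀ n : Fin 3 → ℂ, (∀ y, G g n y ∈ S) → ∃ c : ℂ, n = c • z := by
      intro n hn
      have h1 : fs (G g z x) • n - fs (G g n x) • z = 0 := by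
        apply hx
        rw [map_sub, map_smul, map_smul]
        simp only [LinearMap.sub_apply, LinearMap.smul_apply]
        rw [hfr.mU]
        have h2 := (hfr.mS _).mp (hn x)
        have h3 := (hfr.mS _).mp (hz x)
        simp only [map_sub, map_smul, smul_eq_mul]
        rw [h2.1, h2.2, h3.1, h3.2]
        refine ⟨by ring, by ring, by ring⟩
      refine ⟨(fs (G g z x))⁻¹ * fs (G g n x), ?_⟩
      rw [sub_eq_zero] at h1
      have h2 := congrArg (fun v => (fs (G g z x))⁻¹ • v) h1
      simp only [smul_smul] at h2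
      rw [inv_mul_cancel₀ hzx, one_smul] at h2
      exact h2
    -- `[k, z] = z`
    have hkz : ∀ y, G g (adL s k z) y ∈ S := by
      intro y
      rw [← G_br h]
      refine S.sub_mem (hUS (hSU _ _ (hz y))) ?_
      exact hz _
    obtain ⟨ζ, hζ⟩ := hone _ hkz
    have hez : ∀ y, G g (adL s e z) y ∈ S := by
      intro y
      rw [← G_br h]
      exact S.sub_mem (hUS (hSU _ _ (hz y))) (hz _)
    obtain ⟨ε, hε⟩ := hone _ hez
    obtain ⟨κ, hκ⟩ := hone _ hn
    have q1 : (1 + ζ) * fs (G g z e4) = 0 := by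
      have e1 := fU _ (b4 z)
      rw [hζ, map_smul, LinearMap.smul_apply, map_sub, map_sub, map_smul,
        fU _ (hSU k _ (hz e4)), smul_eq_mul] at e1
      linear_combination e1
    have q2 : (1 - ζ) * fs (G g z e5) = 0 := by
      have e1 := fU _ (b5 z)
      rw [hζ, map_smul, LinearMap.smul_apply, map_sub, map_add, map_smul,
        fU _ (hSU k _ (hz e5)), smul_eq_mul] at e1
      linear_combination -e1
    have q3 : ε * fs (G g z e4) = 0 := by
      have e1 := congrArg fs (G_br h e z e4)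
      rw [hε, map_smul, LinearMap.smul_apply, map_sub, map_smul, smul_eq_mul,
        fU _ (hSU e _ (hz e4)), fU _ (hSU z _ hE4)] at e1
      linear_combination -e1
    have q4 : fs (G g z e4) + ε * fs (G g z e5) = 0 := by
      have e1 := congrArg fs (G_br h e z e5)
      have e2 : G g z (G g e e5) = G g z (G g e e5 - e4) + G g z e4 := by
        rw [map_sub]; abel
      rw [hε, map_smul, LinearMap.smul_apply, map_sub, map_smul, smul_eq_mul,
        fU _ (hSU e _ (hz e5)), e2, map_add, fU _ (hSU z _ hE5)] at e1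
      linear_combination -e1
    have z4 : fs (G g z e4) = 0 := by
      by_contra h0
      have h1 := (mul_eq_zero.mp q3).resolve_right h0
      rw [h1] at q4
      apply h0
      linear_combination q4
    have z5 : fs (G g z e5) ≠ 0 := by
      intro h0
      apply hz0
      apply hx
      exact inU z hz z4 h0 x
    have hζ1 : ζ = 1 := by
      have h1 := (mul_eq_zero.mp q2).resolve_right z5
      linear_combination -h1
    -- the corrected element `e'`
    let e' : Fin 3 → ℂ := e + κ • z
    have hGe' : ∀ y, G g e' y = G g e y + κ • G g z y := by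
      intro y
      show G g (e + κ • z) y = _
      rw [map_add, map_smul]
      rfl
    have he'br : adL s k e' = (2 : ℂ) • e' := by
      show adL s k (e + κ • z) = (2 : ℂ) • (e + κ • z)
      have h1 : adL s k e = (2 : ℂ) • e + κ • z := by
        rw [← hκ]; abel
      rw [map_add, map_smul, h1, hζ, hζ1]
      module
    have he'4 : G g e' e4 ∈ S := by
      rw [hGe']
      exact S.add_mem hE4 (S.smul_mem _ (hz _))
    have he'5 : G g e' e5 - e4 ∈ S := by
      rw [hGe']
      have : G g e e5 + κ • G g z e5 - e4 = (G g e e5 - e4) + κ • G g z e5 := by abel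
      rw [this]
      exact S.add_mem hE5 (S.smul_mem _ (hz _))
    obtain ⟨g4, g5⟩ := gd e' he'4 he'5 he'br
    have he'4U : G g e' e4 ∈ U := (hfr.mU _).mpr ⟨g4, (hfr.mS _).mp he'4⟩
    have f4e' : f4 (G g e' e5) = 1 := by
      have := ((hfr.mS _).mp he'5).1
      rw [map_sub, hfr.f44] at this
      linear_combination this
    have he'0 : e' ≠ 0 := by
      intro h0
      rw [h0, map_zero, LinearMap.zero_apply, map_zero] at f4e'
      exact zero_ne_one f4e'
    have f4k : f4 (G g k e4) = 1 := by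
      have := ((hfr.mU _).mp hH4).2.1
      rw [map_sub, hfr.f44] at this
      linear_combination this
    -- the trace of `k`
    have htr : LinearMap.trace ℂ (Fin 3 → ℂ) (adL s k) = 3 := by
      have hli : LinearIndependent ℂ ![k, e', z] := by
        rw [Fintype.linearIndependent_iff]
        intro c hc
        simp only [Fin.sum_univ_three, Matrix.cons_val_zero, Matrix.cons_val_one,
          Matrix.cons_val] at hc
        have c0 : c 0 = 0 := by
          have h1 := congrArg (fun v => f4 (G g v e4)) hc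
          simp only [map_add, map_smul, LinearMap.add_apply, LinearMap.smul_apply, map_zero,
            LinearMap.zero_apply, smul_eq_mul] at h1
          rw [f4k, ((hfr.mU _).mp he'4U).2.1, ((hfr.mS _).mp (hz e4)).1] at h1
          linear_combination h1
        rw [c0, zero_smul, zero_add] at hc
        have c1 : c 1 = 0 := by
          have h1 := congrArg (fun v => f4 (G g v e5)) hc
          simp only [map_add, map_smul, LinearMap.add_apply, LinearMap.smul_apply, map_zero,
            LinearMap.zero_apply, smul_eq_mul] at h1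
          rw [f4e', ((hfr.mS _).mp (hz e5)).1] at h1
          linear_combination h1
        rw [c1, zero_smul, zero_add] at hc
        have c2 := (smul_eq_zero.mp hc).resolve_right hz0
        intro i
        fin_cases i
        · exact c0
        · exact c1
        · exact c2
      let B := basisOfLinearIndependentOfCardEqFinrank hli (by simp)
      have hB : ⇑B = ![k, e', z] := coe_basisOfLinearIndependentOfCardEqFinrank _ _
      have hB0 : B 0 = k := by rw [hB]; rfl
      have hB1 : B 1 = e' := by rw [hB]; rfl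
      have hB2 : B 2 = z := by rw [hB]; rfl
      have r1 : B.repr e' 1 = 1 := by rw [← hB1, B.repr_self]; simp
      have r2 : B.repr z 2 = 1 := by rw [← hB2, B.repr_self]; simp
      rw [LinearMap.trace_eq_matrix_trace ℂ B, Matrix.trace]
      simp only [Fin.sum_univ_three, Matrix.diag_apply, LinearMap.toMatrix_apply]
      rw [hB0, hB1, hB2, adL_self h, B.repr.map_zero, he'br, hζ, hζ1, B.repr.map_smul,
        B.repr.map_smul, Finsupp.smul_apply, Finsupp.smul_apply, r1, r2]
      simp
      norm_num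
    have h1 := rank_le_two (by simp) h.fU hfr (G g k) (G g e')
      (fun y hy => hSU _ _ (hUS hy)) (fun y hy => hSU _ _ (hUS hy)) (hSU _ _ hfr.hs)
      (hSU _ _ hfr.hs) hH4 hH5 he'4U (by
        intro y
        rw [G_br h, he'br, map_smul]
        rfl) (by rw [G_trace h, htr])
    have h2 := h.rk e' he'0
    rw [← G_apply] at h2
    omega
  · -- (L3)
    push Not at hN
    have hinj : ∀ a : Fin 3 → ℂ, f4 (G g a e4) = 0 → f4 (G g a e5) = 0 → f5 (G g a e4) = 0 →
        a = 0 := by
      intro a h1 h2 h3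
      by_contra h0
      obtain ⟨y, hy⟩ := hN a h0
      apply hy
      apply inS
      · exact (hfr.mS _).mpr ⟨h1, h3⟩
      · refine (hfr.mS _).mpr ⟨h2, ?_⟩
        have h4 := tr_zero h hfr a
        rw [h1, zero_add] at h4
        exact h4
    let p1 : (Fin 3 → ℂ) →ₗ[ℂ] ℂ := f4.comp ((LinearMap.applyₗ e4).comp (G g))
    let p2 : (Fin 3 → ℂ) →ₗ[ℂ] ℂ := f4.comp ((LinearMap.applyₗ e5).comp (G g))
    let p3 : (Fin 3 → ℂ) →ₗ[ℂ] ℂ := f5.comp ((LinearMap.applyₗ e4).comp (G g))
    obtain ⟨f, hf1, hf2, hf3⟩ := surj3 p1 p2 p3 hinj 0 0 1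
    have hf1' : f4 (G g f e4) = 0 := hf1
    have hf2' : f4 (G g f e5) = 0 := hf2
    have hf3' : f5 (G g f e4) = 1 := hf3
    have hf4' : f5 (G g f e5) = 0 := by
      have h4 := tr_zero h hfr f
      rw [hf1', zero_add] at h4
      exact h4
    have hF4 : G g f e4 - e5 ∈ S := by
      rw [hfr.mS, map_sub, map_sub, hf1', hf3', hfr.f45, hfr.f55]
      exact ⟨sub_zero _, sub_self _⟩
    have hF5 : G g f e5 ∈ S := (hfr.mS _).mpr ⟨hf2', hf4'⟩
    have z1 : adL s k e = (2 : ℂ) • e := by
      by_contra h0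
      obtain ⟨y, hy⟩ := hN (adL s k e - (2 : ℂ) • e) (sub_ne_zero.mpr h0)
      exact hy (hn y)
    obtain ⟨g4, g5⟩ := gd e hE4 hE5 z1
    have z2 : adL s k f = (-2 : ℂ) • f := by
      by_contra h0
      obtain ⟨y, hy⟩ := hN (adL s k f - (-2 : ℂ) • f) (sub_ne_zero.mpr h0)
      apply hy
      apply inS
      · rw [map_sub, map_smul]
        simp only [LinearMap.sub_apply, LinearMap.smul_apply]
        have e0 : G g k (G g f e4) = G g k (G g f e4 - e5) + (G g k e5 + e5) - e5 := by
          rw [map_sub]; abel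
        have e1 : G g (adL s k f) e4 - (-2 : ℂ) • G g f e4 =
            (G g (adL s k f) e4 - (G g k (G g f e4) - G g f e4)) + G g k (G g f e4 - e5) +
              (G g k e5 + e5) + (G g f e4 - e5) := by
          rw [e0]; module
        rw [e1]
        exact S.add_mem (S.add_mem (S.add_mem (hUS (b4 f)) (hUS (hSU _ _ hF4))) (hUS hH5)) hF4
      · rw [map_sub, map_smul]
        simp only [LinearMap.sub_apply, LinearMap.smul_apply]
        have e1 : G g (adL s k f) e5 - (-2 : ℂ) • G g f e5 =
            (G g (adL s k f) e5 - (G g k (G g f e5) + G g f e5)) + G g k (G g f e5) +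
              (3 : ℂ) • G g f e5 := by module
        rw [e1]
        exact S.add_mem (S.add_mem (hUS (b5 f)) (hUS (hSU _ _ hF5))) (S.smul_mem _ hF5)
    have g4' : fs (G g f e4) = 0 := by
      have e1 := fU _ (b4 f)
      have e0 : G g k (G g f e4) = G g k (G g f e4 - e5) + (G g k e5 + e5) - e5 := by
        rw [map_sub]; abel
      rw [z2, map_smul, LinearMap.smul_apply, e0, map_sub, map_sub, map_sub, map_add, map_smul,
        fU _ (hSU k _ hF4), fU _ hH5, hfr.s5, smul_eq_mul] at e1
      linear_combination -e1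
    have g5' : fs (G g f e5) = 0 := by
      have e1 := fU _ (b5 f)
      rw [z2, map_smul, LinearMap.smul_apply, map_sub, map_add, map_smul,
        fU _ (hSU k _ hF5), smul_eq_mul] at e1
      linear_combination -(1 / 3) * e1
    have k4 : fs (G g k e4) = 0 := by
      have := fU _ hH4
      rw [map_sub, hfr.s4, sub_zero] at this
      exact this
    have k5 : fs (G g k e5) = 0 := by
      have := fU _ hH5
      rw [map_add, hfr.s5, add_zero] at this
      exact this
    have f4k : f4 (G g k e4) = 1 := by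
      have := ((hfr.mU _).mp hH4).2.1
      rw [map_sub, hfr.f44] at this
      linear_combination this
    have f5k : f5 (G g k e4) = 0 := by
      have := ((hfr.mU _).mp hH4).2.2
      rw [map_sub, hfr.f54] at this
      linear_combination this
    have f4k5 : f4 (G g k e5) = 0 := by
      have := ((hfr.mU _).mp hH5).2.1
      rw [map_add, hfr.f45] at this
      linear_combination this
    have f4e : f4 (G g e e4) = 0 := ((hfr.mS _).mp hE4).1
    have f5e : f5 (G g e e4) = 0 := ((hfr.mS _).mp hE4).2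
    have f4e5 : f4 (G g e e5) = 1 := by
      have := ((hfr.mS _).mp hE5).1
      rw [map_sub, hfr.f44] at this
      linear_combination this
    have hcomb : ∀ a : Fin 3 → ℂ,
        a = f4 (G g a e4) • k + f4 (G g a e5) • e + f5 (G g a e4) • f := by
      intro a
      rw [← sub_eq_zero]
      apply hinj
      · simp only [map_sub, map_add, map_smul, LinearMap.sub_apply, LinearMap.add_apply,
          LinearMap.smul_apply, smul_eq_mul]
        rw [f4k, f4e, hf1']; ring
      · simp only [map_sub, map_add, map_smul, LinearMap.sub_apply, LinearMap.add_apply,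
          LinearMap.smul_apply, smul_eq_mul]
        rw [f4k5, f4e5, hf2']; ring
      · simp only [map_sub, map_add, map_smul, LinearMap.sub_apply, LinearMap.add_apply,
          LinearMap.smul_apply, smul_eq_mul]
        rw [f5k, f5e, hf3']; ring
    have hall : ∀ a : Fin 3 → ℂ, fs (G g a x) = 0 := by
      intro a
      have hl : ∀ y, fs (G g a y) = 0 := by
        intro y
        have a4 : fs (G g a e4) = 0 := by
          rw [hcomb a]
          simp only [map_add, map_smul, LinearMap.add_apply, LinearMap.smul_apply, smul_eq_mul]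
          rw [k4, g4, g4']; ring
        have a5 : fs (G g a e5) = 0 := by
          rw [hcomb a]
          simp only [map_add, map_smul, LinearMap.add_apply, LinearMap.smul_apply, smul_eq_mul]
          rw [k5, g5, g5']; ring
        have e1 : G g a y = G g a (y - (fs y • t + f4 y • e4 + f5 y • e5)) +
            (fs y • G g a t + f4 y • G g a e4 + f5 y • G g a e5) := by
          rw [map_sub, map_add, map_add, map_smul, map_smul, map_smul]; abel
        rw [e1]
        simp only [map_add fs, map_smul fs, smul_eq_mul]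
        rw [fU _ (hSU _ _ (hUS (hfr.dec y))), fU _ (hSU _ _ hfr.hs), a4, a5]
        ring
      exact hl x
    obtain ⟨a, ha1, -, -⟩ := surj3 (fs.comp ((LinearMap.applyₗ x).comp (G g)))
      (f4.comp ((LinearMap.applyₗ x).comp (G g))) (f5.comp ((LinearMap.applyₗ x).comp (G g)))
      (by
        intro a h1 h2 h3
        apply hx
        exact (hfr.mU _).mpr ⟨h1, h2, h3⟩) 1 0 0
    have ha2 : fs (G g a x) = 1 := ha1
    rw [hall a] at ha2
    exact zero_ne_one ha2

theorem LA_end : False := by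
  classical
  obtain ⟨x, hx⟩ := exists_pt h
  have hQ : finrank ℂ ((Fin 5 → ℂ) ⧸ S) = 2 := by
    have h1 := S.finrank_quotient_add_finrank
    rw [h.fS] at h1
    simp at h1
    omega
  let c0 := finBasisOfFinrankEq ℂ _ hQ
  obtain ⟨t, a4, a5, fs, f4, f5, hfr, hm4, hm5, hc4, hc5⟩ :=
    exists_fr (by simp) h.fS h.fU h.US c0
  let R : Submodule ℂ (((Fin 5 → ℂ) ⧸ S) →ₗ[ℂ] ((Fin 5 → ℂ) ⧸ S)) :=
    { carrier := {A | ∃ a, ∀ y, A (S.mkQ y) = S.mkQ (G g a y)}
      add_mem' := by
        rintro A B ⟨a, ha⟩ ⟨b, hb⟩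
        refine ⟨a + b, fun y => ?_⟩
        rw [LinearMap.add_apply, ha, hb, map_add, LinearMap.add_apply, map_add]
      zero_mem' := ⟨0, fun y => by simp⟩
      smul_mem' := by
        rintro r A ⟨a, ha⟩
        refine ⟨r • a, fun y => ?_⟩
        rw [LinearMap.smul_apply, ha, map_smul, LinearMap.smul_apply, map_smul] }
  have hR : ∀ A, A ∈ R ↔ ∃ a, ∀ y, A (S.mkQ y) = S.mkQ (G g a y) := fun A => Iff.rfl
  have htr : ∀ A ∈ R, LinearMap.trace ℂ _ A = 0 := by
    rintro A ⟨a, ha⟩
    rw [LinearMap.trace_eq_matrix_trace ℂ c0, Matrix.trace]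
    simp only [Fin.sum_univ_two, Matrix.diag_apply, LinearMap.toMatrix_apply]
    rw [← hm4, ← hm5, ha, ha, ← hc4, ← hc5]
    exact tr_zero h hfr a
  have hbr : ∀ A ∈ R, ∀ B ∈ R, A ∘ₗ B - B ∘ₗ A ∈ R := by
    rintro A ⟨a, ha⟩ B ⟨b, hb⟩
    refine ⟨adL s a b, fun y => ?_⟩
    rw [LinearMap.sub_apply, LinearMap.comp_apply, LinearMap.comp_apply, ha, hb, ha, hb, ← map_sub,
      G_br h]
  have h2 : ∃ A ∈ R, ∃ B ∈ R, LinearIndependent ℂ ![A, B] := by
    have hs := surj3 (fs.comp ((LinearMap.applyₗ x).comp (G g)))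
      (f4.comp ((LinearMap.applyₗ x).comp (G g))) (f5.comp ((LinearMap.applyₗ x).comp (G g)))
      (by
        intro a h1 h2 h3
        apply hx
        exact (hfr.mU _).mpr ⟨h1, h2, h3⟩)
    obtain ⟨a, -, ha1, ha2⟩ := hs 0 1 0
    obtain ⟨b, -, hb1, hb2⟩ := hs 0 0 1
    have ha1' : f4 (G g a x) = 1 := ha1
    have ha2' : f5 (G g a x) = 0 := ha2
    have hb1' : f4 (G g b x) = 0 := hb1
    have hb2' : f5 (G g b x) = 1 := hb2
    have hcm : ∀ a : Fin 3 → ℂ, S ≤ S.comap (G g a) := fun a y hy => h.US (G_SU h a hy)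
    refine ⟨S.mapQ S (G g a) (hcm a), ⟨a, fun y => rfl⟩, S.mapQ S (G g b) (hcm b),
      ⟨b, fun y => rfl⟩, ?_⟩
    rw [LinearIndependent.pair_iff]
    intro p q hpq
    have h3 := LinearMap.congr_fun hpq (S.mkQ x)
    have h4 : S.mkQ (p • G g a x + q • G g b x) = 0 := by
      rw [map_add, map_smul, map_smul]
      exact h3
    have h5 : p • G g a x + q • G g b x ∈ S := (Submodule.Quotient.mk_eq_zero S).mp h4
    obtain ⟨h6, h7⟩ := (hfr.mS _).mp h5
    rw [map_add, map_smul, map_smul, ha1', hb1', smul_eq_mul, smul_eq_mul] at h6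
    rw [map_add, map_smul, map_smul, ha2', hb2', smul_eq_mul, smul_eq_mul] at h7
    exact ⟨by linear_combination h6, by linear_combination h7⟩
  obtain ⟨c, E, ⟨e, he⟩, H, ⟨k, hk⟩, hE0, hE1, hH0, hH1⟩ := sl2_pair hQ R htr hbr h2
  obtain ⟨t', e4, e5, fs', f4', f5', hfr', hm4', hm5', -, -⟩ :=
    exists_fr (by simp) h.fS h.fU h.US c
  have mem : ∀ y, S.mkQ y = 0 → y ∈ S := by
    intro y hy
    simpa using hy
  have m1 : G g e e4 ∈ S := by
    apply mem
    rw [← he, hm4', hE0]
  have m2 : G g e e5 - e4 ∈ S := by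
    apply mem
    rw [map_sub, ← he, hm5', hE1, hm4', sub_self]
  have m3 : G g k e4 - e4 ∈ S := by
    apply mem
    rw [map_sub, ← hk, hm4', hH0, sub_self]
  have m4 : G g k e5 + e5 ∈ S := by
    apply mem
    rw [map_add, ← hk, hm5', hH1, neg_add_cancel]
  have hSU : ∀ (a : Fin 3 → ℂ) (y : Fin 5 → ℂ), y ∈ S → G g a y ∈ U := fun a y hy => G_SU h a hy
  have hts : ∀ a : Fin 3 → ℂ, G g a t' ∈ U := fun a => hSU a _ hfr'.hs
  refine core h (hfr'.adjust (fs' (G g k e4)) (- fs' (G g k e5))) e k ?_ ?_ ?_ ?_ hx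
  · rw [hfr'.mU]
    have e1 : G g k (e4 + fs' (G g k e4) • t') - (e4 + fs' (G g k e4) • t') =
        (G g k e4 - e4) + fs' (G g k e4) • (G g k t') - fs' (G g k e4) • t' := by
      rw [map_add, map_smul]; abel
    rw [e1]
    obtain ⟨e2, e2'⟩ := (hfr'.mS _).mp m3
    obtain ⟨e3, e3', e3''⟩ := (hfr'.mU _).mp (hts k)
    rw [map_sub] at e2 e2'
    have q4 := hfr'.s4
    have q5 := hfr'.ss
    have q6 := hfr'.f4s
    have q7 := hfr'.f5s
    refine ⟨?_, ?_, ?_⟩ <;>
      simp only [map_add, map_sub, map_smul, smul_eq_mul, e3, e3', e3'', q4, q5, q6, q7]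
    · ring
    · linear_combination e2
    · linear_combination e2'
  · rw [hfr'.mU]
    have e1 : G g k (e5 + (- fs' (G g k e5)) • t') + (e5 + (- fs' (G g k e5)) • t') =
        (G g k e5 + e5) + (- fs' (G g k e5)) • (G g k t') + (- fs' (G g k e5)) • t' := by
      rw [map_add, map_smul]; abel
    rw [e1]
    obtain ⟨e2, e2'⟩ := (hfr'.mS _).mp m4
    obtain ⟨e3, e3', e3''⟩ := (hfr'.mU _).mp (hts k)
    rw [map_add] at e2 e2'
    have q4 := hfr'.s5
    have q5 := hfr'.ss
    have q6 := hfr'.f4s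
    have q7 := hfr'.f5s
    refine ⟨?_, ?_, ?_⟩ <;>
      simp only [map_add, map_sub, map_smul, smul_eq_mul, e3, e3', e3'', q4, q5, q6, q7]
    · ring
    · linear_combination e2
    · linear_combination e2'
  · rw [map_add, map_smul]
    exact S.add_mem m1 (S.smul_mem _ (h.US (hts e)))
  · have e1 : G g e (e5 + (- fs' (G g k e5)) • t') - (e4 + fs' (G g k e4) • t') =
        (G g e e5 - e4) + (- fs' (G g k e5)) • (G g e t') - fs' (G g k e4) • t' := by
      rw [map_add, map_smul]; abel
    rw [e1]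
    exact S.sub_mem (S.add_mem m2 (S.smul_mem _ (h.US (hts e)))) (S.smul_mem _ hfr'.hs)

end

end Pool.Agent.Helper26.B1E
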