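import Mathlib

/-! Block B1 of the project on MP_45a28a (frozen statement S00166), end game, part 1:
linear algebra in a space of dimension 5 with subspaces U (dimension 2) in S (dimension 3). -/

set_option autoImplicit false

namespace Pool.Agent.Helper26.B1E

open Module
open scoped BigOperators

variable {V : Type} [AddCommGroup V] [Module ℂ V]

/-- adapted frame: `U = {fs = f4 = f5 = 0}`, `S = {f4 = f5 = 0}` -/
structure Fr (U S : Submodule ℂ V) (s e4 e5 : V) (fs f4 f5 : V →ₗ[ℂ] ℂ) : Prop where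
  hs : s ∈ S
  mU : ∀ y, y ∈ U ↔ fs y = 0 ∧ f4 y = 0 ∧ f5 y = 0
  mS : ∀ y, y ∈ S ↔ f4 y = 0 ∧ f5 y = 0
  ss : fs s = 1
  s4 : fs e4 = 0
  s5 : fs e5 = 0
  f44 : f4 e4 = 1
  f45 : f4 e5 = 0
  f54 : f5 e4 = 0
  f55 : f5 e5 = 1

namespace Fr

variable {U S : Submodule ℂ V} {s e4 e5 : V} {fs f4 f5 : V →ₗ[ℂ] ℂ}

theorem f4s (h : Fr U S s e4 e5 fs f4 f5) : f4 s = 0 := ((h.mS s).mp h.hs).1

theorem f5s (h : Fr U S s e4 e5 fs f4 f5) : f5 s = 0 := ((h.mS s).mp h.hs).2

theorem US (h : Fr U S s e4 e5 fs f4 f5) : U ≤ S := by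
  intro y hy
  exact (h.mS y).mpr ((h.mU y).mp hy).2

theorem dec (h : Fr U S s e4 e5 fs f4 f5) (y : V) :
    y - (fs y • s + f4 y • e4 + f5 y • e5) ∈ U := by
  rw [h.mU]
  refine ⟨?_, ?_, ?_⟩ <;>
    simp [h.ss, h.s4, h.s5, h.f44, h.f45, h.f54, h.f55, h.f4s, h.f5s]

/-- the trace of an endomorphism preserving `U` -/
theorem trace (h : Fr U S s e4 e5 fs f4 f5) (hV : finrank ℂ V = 5) {v w : V} (hv : v ∈ U)
    (hw : w ∈ U) (hvw : LinearIndependent ℂ ![v, w]) (X : V →ₗ[ℂ] V) {a b c d : ℂ}
    (hXv : X v = a • v + b • w) (hXw : X w = c • v + d • w) :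
    LinearMap.trace ℂ V X = a + d + fs (X s) + f4 (X e4) + f5 (X e5) := by
  have hv' := (h.mU v).mp hv
  have hw' := (h.mU w).mp hw
  have hli : LinearIndependent ℂ ![v, w, s, e4, e5] := by
    rw [Fintype.linearIndependent_iff]
    intro g hg
    simp only [Fin.sum_univ_five, Matrix.cons_val_zero, Matrix.cons_val_one, Matrix.cons_val] at hg
    have h2 : g 2 = 0 := by
      have := congrArg fs hg
      simpa [hv'.1, hw'.1, h.ss, h.s4, h.s5] using this
    have h3 : g 3 = 0 := by
      have := congrArg f4 hg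
      simpa [hv'.2.1, hw'.2.1, h.f4s, h.f44, h.f45] using this
    have h4 : g 4 = 0 := by
      have := congrArg f5 hg
      simpa [hv'.2.2, hw'.2.2, h.f5s, h.f54, h.f55] using this
    rw [h2, h3, h4] at hg
    simp only [zero_smul, add_zero] at hg
    have h5 := LinearIndependent.pair_iff.mp hvw (g 0) (g 1) hg
    intro i
    fin_cases i
    · exact h5.1
    · exact h5.2
    · exact h2
    · exact h3
    · exact h4
  let B := basisOfLinearIndependentOfCardEqFinrank hli (by rw [hV]; rfl)
  have hB : ⇑B = ![v, w, s, e4, e5] := coe_basisOfLinearIndependentOfCardEqFinrank _ _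
  have hrep : ∀ (y : V) (p q : ℂ) , y - (fs y • s + f4 y • e4 + f5 y • e5) = p • v + q • w →
      B.repr y = Finsupp.equivFunOnFinite.symm ![p, q, fs y, f4 y, f5 y] := by
    intro y p q hy
    have h1 : y = ∑ i, (![p, q, fs y, f4 y, f5 y] : Fin 5 → ℂ) i • B i := by
      rw [hB]
      simp only [Fin.sum_univ_five, Matrix.cons_val_zero, Matrix.cons_val_one, Matrix.cons_val]
      rw [← hy]
      abel
    have h2 : B.equivFun y = ![p, q, fs y, f4 y, f5 y] := by
      rw [h1]
      rw [← B.equivFun_symm_apply, LinearEquiv.apply_symm_apply]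
      rw [B.equivFun_symm_apply]
      rw [← h1]
    ext i
    rw [← B.equivFun_apply, h2]
    rfl
  have hspan : ∀ y ∈ U, ∃ p q : ℂ, y = p • v + q • w := by
    intro y hy
    have hy' := (h.mU y).mp hy
    have h1 := B.sum_repr y
    rw [hB] at h1
    simp only [Fin.sum_univ_five, Matrix.cons_val_zero, Matrix.cons_val_one, Matrix.cons_val] at h1
    have h2 : (B.repr y) 2 = 0 := by
      have := congrArg fs h1
      simpa [hv'.1, hw'.1, h.ss, h.s4, h.s5, hy'.1] using this
    have h3 : (B.repr y) 3 = 0 := by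
      have := congrArg f4 h1
      simpa [hv'.2.1, hw'.2.1, h.f4s, h.f44, h.f45, hy'.2.1] using this
    have h4 : (B.repr y) 4 = 0 := by
      have := congrArg f5 h1
      simpa [hv'.2.2, hw'.2.2, h.f5s, h.f54, h.f55, hy'.2.2] using this
    rw [h2, h3, h4] at h1
    simp only [zero_smul, add_zero] at h1
    exact ⟨_, _, h1.symm⟩
  rw [LinearMap.trace_eq_matrix_trace ℂ B, Matrix.trace]
  simp only [Fin.sum_univ_five, Matrix.diag_apply, LinearMap.toMatrix_apply]
  have e0 : B 0 = v := by rw [hB]; rfl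
  have e1 : B 1 = w := by rw [hB]; rfl
  have e2 : B 2 = s := by rw [hB]; rfl
  have e3 : B 3 = e4 := by rw [hB]; rfl
  have e4' : B 4 = e5 := by rw [hB]; rfl
  rw [e0, e1, e2, e3, e4']
  have hXvU : X v ∈ U := by
    rw [hXv]
    exact U.add_mem (U.smul_mem _ hv) (U.smul_mem _ hw)
  have hXwU : X w ∈ U := by
    rw [hXw]
    exact U.add_mem (U.smul_mem _ hv) (U.smul_mem _ hw)
  have h0 : (B.repr (X v)) 0 = a := by
    rw [hrep (X v) a b (by
      have := (h.mU _).mp hXvU
      rw [this.1, this.2.1, this.2.2]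
      simpa using hXv)]
    rfl
  have h1 : (B.repr (X w)) 1 = d := by
    rw [hrep (X w) c d (by
      have := (h.mU _).mp hXwU
      rw [this.1, this.2.1, this.2.2]
      simpa using hXw)]
    rfl
  have h2 : (B.repr (X s)) 2 = fs (X s) := by
    obtain ⟨p, q, hpq⟩ := hspan _ (h.dec (X s))
    rw [hrep _ p q hpq]
    rfl
  have h3 : (B.repr (X e4)) 3 = f4 (X e4) := by
    obtain ⟨p, q, hpq⟩ := hspan _ (h.dec (X e4))
    rw [hrep _ p q hpq]
    rfl
  have h4 : (B.repr (X e5)) 4 = f5 (X e5) := by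
    obtain ⟨p, q, hpq⟩ := hspan _ (h.dec (X e5))
    rw [hrep _ p q hpq]
    rfl
  rw [h0, h1, h2, h3, h4]

end Fr

/-- existence of an adapted frame, with given basis of `V ⧸ S` -/
theorem exists_fr [FiniteDimensional ℂ V] (hV : finrank ℂ V = 5) {U S : Submodule ℂ V}
    (hS : finrank ℂ S = 3) (hU : finrank ℂ U = 2) (hUS : U ≤ S) (c : Basis (Fin 2) ℂ (V ⧸ S)) :
    ∃ (s e4 e5 : V) (fs f4 f5 : V →ₗ[ℂ] ℂ), Fr U S s e4 e5 fs f4 f5 ∧
      S.mkQ e4 = c 0 ∧ S.mkQ e5 = c 1 ∧ (∀ y, f4 y = c.repr (S.mkQ y) 0) ∧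
      ∀ y, f5 y = c.repr (S.mkQ y) 1 := by
  have hlt : ¬ S ≤ U := by
    intro hSU
    have := Submodule.finrank_mono hSU
    omega
  obtain ⟨s, hsS, hsU⟩ := SetLike.not_le_iff_exists.mp hlt
  obtain ⟨e4, he4⟩ := S.mkQ_surjective (c 0)
  obtain ⟨e5, he5⟩ := S.mkQ_surjective (c 1)
  let f4 : V →ₗ[ℂ] ℂ := (c.coord 0).comp S.mkQ
  let f5 : V →ₗ[ℂ] ℂ := (c.coord 1).comp S.mkQ
  have hf4 : ∀ y, f4 y = c.repr (S.mkQ y) 0 := fun y => rfl
  have hf5 : ∀ y, f5 y = c.repr (S.mkQ y) 1 := fun y => rfl
  obtain ⟨g0, hg1, hg2⟩ := LinearMap.exists_extend_of_notMem (0 : U →ₗ[ℂ] ℂ) hsU (1 : ℂ)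
  have hg0 : ∀ y ∈ U, g0 y = 0 := by
    intro y hy
    have := LinearMap.congr_fun hg1 ⟨y, hy⟩
    simpa using this
  have hmS : ∀ y, y ∈ S ↔ f4 y = 0 ∧ f5 y = 0 := by
    intro y
    rw [hf4, hf5]
    constructor
    · intro hy
      have h1 : S.mkQ y = 0 := by simpa using hy
      rw [h1]
      simp
    · intro hy
      have h1 : c.repr (S.mkQ y) = 0 := by
        ext i
        fin_cases i
        · exact hy.1
        · exact hy.2
      have h2 : S.mkQ y = 0 := by simpa using h1
      simpa using h2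
  let fs : V →ₗ[ℂ] ℂ := g0 - g0 e4 • f4 - g0 e5 • f5
  have h44 : f4 e4 = 1 := by rw [hf4, he4]; simp
  have h45 : f4 e5 = 0 := by rw [hf4, he5]; simp
  have h54 : f5 e4 = 0 := by rw [hf5, he4]; simp
  have h55 : f5 e5 = 1 := by rw [hf5, he5]; simp
  have hs4 : f4 s = 0 := ((hmS s).mp hsS).1
  have hs5 : f5 s = 0 := ((hmS s).mp hsS).2
  have hfs : ∀ y, fs y = g0 y - g0 e4 * f4 y - g0 e5 * f5 y := fun y => rfl
  refine ⟨s, e4, e5, fs, f4, f5, ?_, he4, he5, hf4, hf5⟩
  have hss : fs s = 1 := by rw [hfs, hg2, hs4, hs5]; ring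
  refine ⟨hsS, ?_, hmS, hss, ?_, ?_, h44, h45, h54, h55⟩
  · -- membership in `U`
    have hle : U ≤ LinearMap.ker (fs.prod (f4.prod f5)) := by
      intro y hy
      have h1 := (hmS y).mp (hUS hy)
      rw [LinearMap.mem_ker]
      have h2 : fs y = 0 := by rw [hfs, hg0 y hy, h1.1, h1.2]; ring
      simp [h1.1, h1.2, h2]
    have hsurj : LinearMap.range (fs.prod (f4.prod f5)) = ⊤ := by
      rw [LinearMap.range_eq_top]
      rintro ⟨a, b, d⟩
      refine ⟨a • s + b • e4 + d • e5, ?_⟩
      have h1 : fs e4 = 0 := by rw [hfs, h44, h54]; ring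
      have h2 : fs e5 = 0 := by rw [hfs, h45, h55]; ring
      simp [hss, h44, h45, h54, h55, hs4, hs5, h1, h2]
    have hrk := LinearMap.finrank_range_add_finrank_ker (fs.prod (f4.prod f5))
    rw [hsurj, finrank_top, hV] at hrk
    simp only [finrank_prod, finrank_self] at hrk
    have heq : U = LinearMap.ker (fs.prod (f4.prod f5)) :=
      Submodule.eq_of_le_of_finrank_eq hle (by omega)
    intro y
    conv_lhs => rw [heq]
    rw [LinearMap.mem_ker]
    simp
  · rw [hfs, h44, h54]; ring
  · rw [hfs, h45, h55]; ring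


/-- an endomorphism with image (outside one direction) in a line has rank at most two -/
theorem rank_le_of_line [FiniteDimensional ℂ V] {U S : Submodule ℂ V} {s e4 e5 : V}
    {fs f4 f5 : V →ₗ[ℂ] ℂ} (hfr : Fr U S s e4 e5 fs f4 f5) (E : V →ₗ[ℂ] V) (w : V)
    (hU : ∀ y ∈ U, E y ∈ Submodule.span ℂ {w}) (hs : E s ∈ Submodule.span ℂ {w})
    (h4 : E e4 ∈ Submodule.span ℂ {w}) : finrank ℂ (LinearMap.range E) ≤ 2 := by
  classical
  have hle : LinearMap.range E ≤ Submodule.span ℂ (({w, E e5} : Finset V) : Set V) := by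
    rintro _ ⟨y, rfl⟩
    have hsub : Submodule.span ℂ {w} ≤ Submodule.span ℂ (({w, E e5} : Finset V) : Set V) := by
      apply Submodule.span_mono
      simp
    have h1 : y = (y - (fs y • s + f4 y • e4 + f5 y • e5)) + (fs y • s + f4 y • e4 + f5 y • e5) := by
      abel
    rw [h1, map_add, map_add, map_add, map_smul, map_smul, map_smul]
    refine Submodule.add_mem _ (hsub (hU _ (hfr.dec y))) (Submodule.add_mem _ (Submodule.add_mem _
      (Submodule.smul_mem _ _ (hsub hs)) (Submodule.smul_mem _ _ (hsub h4)))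
      (Submodule.smul_mem _ _ (Submodule.subset_span ?_)))
    simp
  calc finrank ℂ (LinearMap.range E)
      ≤ finrank ℂ (Submodule.span ℂ (({w, E e5} : Finset V) : Set V)) := Submodule.finrank_mono hle
    _ ≤ ({w, E e5} : Finset V).card := finrank_span_finset_le_card _
    _ ≤ 2 := Finset.card_le_two

/-- in dimension two, `[H, E] = 2 E` gives `E² = 0` -/
theorem sq_zero_of_weight {U : Type} [AddCommGroup U] [Module ℂ U] [FiniteDimensional ℂ U]
    (hU : finrank ℂ U = 2) (H E : U →ₗ[ℂ] U) (h : ∀ y, H (E y) - E (H y) = (2 : ℂ) • E y) (y : U) :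
    E (E y) = 0 := by
  let b := finBasisOfFinrankEq ℂ U hU
  have h1 : H * E - E * H = (2 : ℂ) • E := LinearMap.ext h
  have h2 := congrArg (LinearMap.toMatrix b b) h1
  rw [map_sub, LinearMap.toMatrix_mul, LinearMap.toMatrix_mul, map_smul] at h2
  set A := LinearMap.toMatrix b b E with hA
  set M := LinearMap.toMatrix b b H with hM
  have e : ∀ i j, (M * A - A * M) i j = ((2 : ℂ) • A) i j := fun i j => by rw [h2]
  have e11 := e 0 0
  have e12 := e 0 1
  have e21 := e 1 0
  have e22 := e 1 1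
  simp only [Matrix.sub_apply, Matrix.mul_apply, Fin.sum_univ_two, Matrix.smul_apply,
    smul_eq_mul] at e11 e12 e21 e22
  have t : A 0 0 + A 1 1 = 0 := by linear_combination -(1 / 2) * e11 - (1 / 2) * e22
  have t2 : A 1 1 = - A 0 0 := by linear_combination t
  have q : A 0 0 * A 0 0 + A 0 1 * A 1 0 = 0 := by
    have : A 0 0 * A 0 0 + 2 * (A 0 1 * A 1 0) + A 1 1 * A 1 1 = 0 := by
      linear_combination -(1 / 2) * (A 0 0) * e11 - (1 / 2) * (A 1 0) * e12
        - (1 / 2) * (A 0 1) * e21 - (1 / 2) * (A 1 1) * e22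
    rw [t2] at this
    linear_combination (1 / 2) * this
  have hAA : A * A = 0 := by
    ext i j
    fin_cases i <;> fin_cases j
    · simp only [Matrix.mul_apply, Fin.sum_univ_two, Fin.zero_eta, Matrix.zero_apply]
      linear_combination q
    · simp only [Matrix.mul_apply, Fin.sum_univ_two, Fin.zero_eta, Fin.mk_one, Matrix.zero_apply]
      rw [t2]; ring
    · simp only [Matrix.mul_apply, Fin.sum_univ_two, Fin.zero_eta, Fin.mk_one, Matrix.zero_apply]
      rw [t2]; ring
    · simp only [Matrix.mul_apply, Fin.sum_univ_two, Fin.mk_one, Matrix.zero_apply]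
      rw [t2]; linear_combination q
  have hEE : E * E = 0 := by
    apply (LinearMap.toMatrix b b).injective
    rw [LinearMap.toMatrix_mul, map_zero]
    exact hAA
  exact LinearMap.congr_fun hEE y

/-- the last step: an element of weight two has rank at most two -/
theorem rank_le_two [FiniteDimensional ℂ V] (hV : finrank ℂ V = 5) {U S : Submodule ℂ V}
    (hU2 : finrank ℂ U = 2) {s e4 e5 : V} {fs f4 f5 : V →ₗ[ℂ] ℂ}
    (hfr : Fr U S s e4 e5 fs f4 f5) (H E : V →ₗ[ℂ] V)
    (hHU : ∀ y ∈ U, H y ∈ U) (hEU : ∀ y ∈ U, E y ∈ U) (hHs : H s ∈ U) (hEs : E s ∈ U)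
    (hH4 : H e4 - e4 ∈ U) (hH5 : H e5 + e5 ∈ U) (hE4 : E e4 ∈ U)
    (hHE : ∀ y, H (E y) - E (H y) = (2 : ℂ) • E y) (htr : LinearMap.trace ℂ V H = 3) :
    finrank ℂ (LinearMap.range E) ≤ 2 := by
  have hm := hfr.mU
  have t1 : fs (H s) = 0 := ((hm _).mp hHs).1
  have t2 : f4 (H e4) = 1 := by
    have := ((hm _).mp hH4).2.1
    rw [map_sub, hfr.f44] at this
    linear_combination this
  have t3 : f5 (H e5) = -1 := by
    have := ((hm _).mp hH5).2.2
    rw [map_add, hfr.f55] at this
    linear_combination this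
  by_cases hE0 : ∀ y ∈ U, E y = 0
  · -- `E` vanishes on `U`
    have a1 : H (E s) = (2 : ℂ) • E s := by
      have := hHE s
      rw [hE0 _ hHs, sub_zero] at this
      exact this
    have a2 : H (E e4) = (3 : ℂ) • E e4 := by
      have h1 := hHE e4
      have h2 := hE0 _ hH4
      rw [map_sub, sub_eq_zero] at h2
      rw [h2, sub_eq_iff_eq_add] at h1
      rw [h1]
      module
    by_cases hli : LinearIndependent ℂ ![E s, E e4]
    · exfalso
      have h1 := hfr.trace hV hEs hE4 hli H (a := 2) (b := 0) (c := 0) (d := 3)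
        (by rw [a1]; simp) (by rw [a2]; simp)
      rw [htr, t1, t2, t3] at h1
      norm_num at h1
    · have hdep : ∃ w, E s ∈ Submodule.span ℂ {w} ∧ E e4 ∈ Submodule.span ℂ {w} := by
        by_cases h0 : E s = 0
        · exact ⟨E e4, by rw [h0]; exact Submodule.zero_mem _, Submodule.mem_span_singleton_self _⟩
        · refine ⟨E s, Submodule.mem_span_singleton_self _, ?_⟩
          rw [LinearIndependent.pair_iff' h0] at hli
          push Not at hli
          obtain ⟨a, ha⟩ := hli
          rw [← ha]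
          exact Submodule.smul_mem _ _ (Submodule.mem_span_singleton_self _)
      obtain ⟨w, hw1, hw2⟩ := hdep
      exact rank_le_of_line hfr E w (fun y hy => by rw [hE0 y hy]; exact Submodule.zero_mem _)
        hw1 hw2
  · push Not at hE0
    obtain ⟨v, hv, hv0⟩ := hE0
    have hEE : ∀ y ∈ U, E (E y) = 0 := by
      intro y hy
      have h1 := sq_zero_of_weight hU2 (H.restrict hHU) (E.restrict hEU) (by
        intro z
        apply Subtype.ext
        exact hHE z) ⟨y, hy⟩
      exact congrArg Subtype.val h1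
    have hw : E v ∈ U := hEU v hv
    have hli : LinearIndependent ℂ ![v, E v] := by
      rw [LinearIndependent.pair_iff]
      intro a b hab
      have h1 := congrArg E hab
      rw [map_add, map_smul, map_smul, hEE v hv, smul_zero, add_zero, map_zero] at h1
      have ha : a = 0 := (smul_eq_zero.mp h1).resolve_right hv0
      refine ⟨ha, ?_⟩
      rw [ha, zero_smul, zero_add] at hab
      exact (smul_eq_zero.mp hab).resolve_right hv0
    have hspan : ∀ y ∈ U, ∃ p q : ℂ, y = p • v + q • E v := by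
      have h1 : Submodule.span ℂ (Set.range ![v, E v]) = U := by
        apply Submodule.eq_of_le_of_finrank_eq
        · rw [Submodule.span_le]
          rintro _ ⟨i, rfl⟩
          fin_cases i
          · exact hv
          · exact hw
        · rw [finrank_span_eq_card hli, hU2]
          rfl
      intro y hy
      rw [← h1] at hy
      simp only [Matrix.range_cons, Matrix.range_empty, Set.union_empty] at hy
      rw [Set.singleton_union, Submodule.mem_span_pair] at hy
      obtain ⟨p, q, h2⟩ := hy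
      exact ⟨p, q, h2.symm⟩
    have hcoef : ∀ a b c d : ℂ, a • v + b • E v = c • v + d • E v → a = c := by
      intro a b c d h1
      have h2 : (a - c) • v + (b - d) • E v = 0 := by
        rw [sub_smul, sub_smul]
        rw [← sub_eq_zero] at h1
        rw [← h1]
        abel
      have := (LinearIndependent.pair_iff.mp hli _ _ h2).1
      linear_combination this
    obtain ⟨p, r, hHv⟩ := hspan _ (hHU v hv)
    have hHw : H (E v) = (0 : ℂ) • v + (p + 2) • E v := by
      have h1 := hHE v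
      rw [hHv, map_add, map_smul, map_smul, hEE v hv, smul_zero, add_zero, sub_eq_iff_eq_add] at h1
      rw [h1]
      module
    have hp : p = 1 / 2 := by
      have h1 := hfr.trace hV hv hw hli H hHv hHw
      rw [htr, t1, t2, t3] at h1
      linear_combination -(1 / 2) * h1
    refine rank_le_of_line hfr E (E v) ?_ ?_ ?_
    · intro y hy
      obtain ⟨x1, x2, h1⟩ := hspan y hy
      rw [h1, map_add, map_smul, map_smul, hEE v hv, smul_zero, add_zero]
      exact Submodule.smul_mem _ _ (Submodule.mem_span_singleton_self _)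
    · obtain ⟨x1, x2, h1⟩ := hspan _ hEs
      obtain ⟨y1, y2, h2⟩ := hspan _ hHs
      have h3 := hHE s
      rw [h2, h1, map_add, map_smul, map_smul, hHw, hHv, map_add, map_smul, map_smul, hEE v hv]
        at h3
      have h4 : (x1 * p) • v + (x1 * r + x2 * (p + 2) - y1) • E v = (2 * x1) • v + (2 * x2) • E v := by
        have h5 : x1 • (p • v + r • E v) + x2 • ((0 : ℂ) • v + (p + 2) • E v) -
            (y1 • E v + y2 • (0 : V)) =
            (x1 * p) • v + (x1 * r + x2 * (p + 2) - y1) • E v := by module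
        rw [← h5, h3]
        module
      have h5 := hcoef _ _ _ _ h4
      rw [hp] at h5
      have h6 : x1 = 0 := by linear_combination -(2 / 3) * h5
      rw [h1, h6, zero_smul, zero_add]
      exact Submodule.smul_mem _ _ (Submodule.mem_span_singleton_self _)
    · obtain ⟨x1, x2, h1⟩ := hspan _ hE4
      obtain ⟨y1, y2, h2⟩ := hspan _ hH4
      have h3 := hHE e4
      have h2' : H e4 = e4 + (y1 • v + y2 • E v) := by rw [← h2]; abel
      rw [h2', map_add, h1, map_add, map_smul, map_smul, hHw, hHv, map_add, map_smul, map_smul,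
        hEE v hv] at h3
      have h4 : (x1 * p - x1) • v + (x1 * r + x2 * (p + 2) - x2 - y1) • E v =
          (2 * x1) • v + (2 * x2) • E v := by
        have h5 : x1 • (p • v + r • E v) + x2 • ((0 : ℂ) • v + (p + 2) • E v) -
            (x1 • v + x2 • E v + (y1 • E v + y2 • (0 : V))) =
            (x1 * p - x1) • v + (x1 * r + x2 * (p + 2) - x2 - y1) • E v := by module
        rw [← h5, h3]
        module
      have h5 := hcoef _ _ _ _ h4
      rw [hp] at h5
      have h6 : x1 = 0 := by linear_combination -(2 / 5) * h5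
      rw [h1, h6, zero_smul, zero_add]
      exact Submodule.smul_mem _ _ (Submodule.mem_span_singleton_self _)

end Pool.Agent.Helper26.B1E
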