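import Pool.Agent.Helper26.B1E.Fin

/-! Block B1 of the project on MP_45a28a, end game, part 2: subalgebras of dimension at least two of
`sl_2`. -/

set_option autoImplicit false

namespace Pool.Agent.Helper26.B1E

open Module
open scoped BigOperators

variable {Q : Type} [AddCommGroup Q] [Module ℂ Q] [FiniteDimensional ℂ Q]

/-- an endomorphism of trace zero of a plane has scalar square -/
theorem sq_scalar (hQ : finrank ℂ Q = 2) (A : Q →ₗ[ℂ] Q) (hA : LinearMap.trace ℂ Q A = 0) :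
    ∃ κ : ℂ, ∀ q, A (A q) = κ • q := by
  let b := finBasisOfFinrankEq ℂ Q hQ
  set M := LinearMap.toMatrix b b A with hM
  have ht : M 0 0 + M 1 1 = 0 := by
    rw [LinearMap.trace_eq_matrix_trace ℂ b, Matrix.trace] at hA
    simpa [Fin.sum_univ_two] using hA
  have ht2 : M 1 1 = - M 0 0 := by linear_combination ht
  refine ⟨M 0 0 * M 0 0 + M 0 1 * M 1 0, ?_⟩
  have h1 : M * M = (M 0 0 * M 0 0 + M 0 1 * M 1 0) • (1 : Matrix (Fin 2) (Fin 2) ℂ) := by
    ext i j
    fin_cases i <;> fin_cases j <;>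
      simp only [Matrix.mul_apply, Fin.sum_univ_two, Matrix.smul_apply, Matrix.one_apply,
        Fin.zero_eta, Fin.mk_one, smul_eq_mul, if_true, ht2] <;> simp <;> ring
  have h2 : A * A = (M 0 0 * M 0 0 + M 0 1 * M 1 0) • (1 : Module.End ℂ Q) := by
    apply (LinearMap.toMatrix b b).injective
    rw [LinearMap.toMatrix_mul, map_smul, LinearMap.toMatrix_one, ← hM, h1]
  intro q
  exact LinearMap.congr_fun h2 q

private theorem exists_nilp (hQ : finrank ℂ Q = 2) (R : Submodule ℂ (Q →ₗ[ℂ] Q))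
    (htr : ∀ A ∈ R, LinearMap.trace ℂ Q A = 0)
    (h2 : ∃ A ∈ R, ∃ B ∈ R, LinearIndependent ℂ ![A, B]) :
    ∃ E ∈ R, E ≠ 0 ∧ (∀ q, E (E q) = 0) ∧ ∃ Y ∈ R, ∀ t : ℂ, Y ≠ t • E := by
  obtain ⟨A, hA, B, hB, hAB⟩ := h2
  have hAB' := LinearIndependent.pair_iff.mp hAB
  have hA0 : A ≠ 0 := by
    rintro rfl
    have := hAB' 1 0 (by simp)
    exact one_ne_zero this.1
  have hB0 : B ≠ 0 := by
    rintro rfl
    have := hAB' 0 1 (by simp)
    exact one_ne_zero this.2
  obtain ⟨κA, hκA⟩ := sq_scalar hQ A (htr A hA)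
  obtain ⟨κB, hκB⟩ := sq_scalar hQ B (htr B hB)
  obtain ⟨κC, hκC⟩ := sq_scalar hQ (A + B) (htr _ (R.add_mem hA hB))
  by_cases h0 : κB = 0
  · refine ⟨B, hB, hB0, fun q => by rw [hκB, h0, zero_smul], A, hA, fun t ht => ?_⟩
    have := hAB' 1 (-t) (by rw [ht]; module)
    exact one_ne_zero this.1
  · obtain ⟨r, hr⟩ := IsAlgClosed.exists_pow_nat_eq ((κC - κA - κB) ^ 2 - 4 * κB * κA)
      (n := 2) (by norm_num)
    let t : ℂ := (-(κC - κA - κB) + r) / (2 * κB)
    have ht : κB * (t * t) + (κC - κA - κB) * t + κA = 0 := by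
      have h2B : (2 * κB) ≠ 0 := mul_ne_zero two_ne_zero h0
      show κB * (((-(κC - κA - κB) + r) / (2 * κB)) * ((-(κC - κA - κB) + r) / (2 * κB))) +
        (κC - κA - κB) * ((-(κC - κA - κB) + r) / (2 * κB)) + κA = 0
      field_simp
      linear_combination hr
    refine ⟨A + t • B, R.add_mem hA (R.smul_mem _ hB), ?_, ?_, B, hB, ?_⟩
    · intro h1
      have := hAB' 1 t (by rw [← h1]; module)
      exact one_ne_zero this.1
    · intro q
      have e1 := hκC q
      simp only [LinearMap.add_apply, map_add] at e1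
      have e2 : A (B q) + B (A q) = (κC - κA - κB) • q := by
        rw [hκA, hκB] at e1
        have : A (B q) + B (A q) = κC • q - κA • q - κB • q := by
          rw [← e1]; abel
        rw [this]; module
      simp only [LinearMap.add_apply, map_add, LinearMap.smul_apply, map_smul]
      rw [hκA, hκB]
      have e4 : κA • q + t • B (A q) + t • (A (B q) + t • κB • q) =
          κA • q + t • (A (B q) + B (A q)) + (t * t * κB) • q := by module
      rw [e4, e2]
      have e5 : κA • q + t • (κC - κA - κB) • q + (t * t * κB) • q =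
          (κB * (t * t) + (κC - κA - κB) * t + κA) • q := by module
      rw [e5, ht, zero_smul]
    · intro u hu
      have := hAB' u (u * t - 1) (by
        have e6 : u • A + (u * t - 1) • B = u • (A + t • B) - B := by module
        rw [e6, ← hu, sub_self])
      have h3 := this.1
      rw [h3] at hu
      exact hB0 (by rw [hu, zero_smul])

theorem sl2_pair (hQ : finrank ℂ Q = 2) (R : Submodule ℂ (Q →ₗ[ℂ] Q))
    (htr : ∀ A ∈ R, LinearMap.trace ℂ Q A = 0)
    (hbr : ∀ A ∈ R, ∀ B ∈ R, A ∘ₗ B - B ∘ₗ A ∈ R)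
    (h2 : ∃ A ∈ R, ∃ B ∈ R, LinearIndependent ℂ ![A, B]) :
    ∃ c : Basis (Fin 2) ℂ Q, ∃ E ∈ R, ∃ H ∈ R,
      E (c 0) = 0 ∧ E (c 1) = c 0 ∧ H (c 0) = c 0 ∧ H (c 1) = - c 1 := by
  obtain ⟨E, hE, hE0, hEE, Y, hY, hYE⟩ := exists_nilp hQ R htr h2
  have hex : ∃ q, E q ≠ 0 := by
    by_contra hcon
    push Not at hcon
    exact hE0 (LinearMap.ext hcon)
  obtain ⟨q5, hq5⟩ := hex
  have hli : LinearIndependent ℂ ![E q5, q5] := by
    rw [LinearIndependent.pair_iff]
    intro a b hab
    have h1 := congrArg E hab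
    rw [map_add, map_smul, map_smul, hEE, smul_zero, zero_add, map_zero] at h1
    have hb : b = 0 := (smul_eq_zero.mp h1).resolve_right hq5
    rw [hb, zero_smul, add_zero] at hab
    exact ⟨(smul_eq_zero.mp hab).resolve_right hq5, hb⟩
  let c := basisOfLinearIndependentOfCardEqFinrank hli (by rw [hQ]; rfl)
  have hc : ⇑c = ![E q5, q5] := coe_basisOfLinearIndependentOfCardEqFinrank _ _
  have hc0 : c 0 = E q5 := by rw [hc]; rfl
  have hc1 : c 1 = q5 := by rw [hc]; rfl
  have hE0' : E (c 0) = 0 := by rw [hc0, hEE]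
  have hE1' : E (c 1) = c 0 := by rw [hc0, hc1]
  refine ⟨c, E, hE, ?_⟩
  -- the second element
  have hrep : ∀ q, q = c.repr q 0 • c 0 + c.repr q 1 • c 1 := by
    intro q
    have := c.sum_repr q
    rw [Fin.sum_univ_two] at this
    exact this.symm
  obtain ⟨a, r, hYc0⟩ : ∃ a r : ℂ, Y (c 0) = a • c 0 + r • c 1 := ⟨_, _, hrep _⟩
  obtain ⟨b, d, hYc1⟩ : ∃ b d : ℂ, Y (c 1) = b • c 0 + d • c 1 := ⟨_, _, hrep _⟩
  have hd : d = -a := by
    have h1 := htr Y hY
    rw [LinearMap.trace_eq_matrix_trace ℂ c, Matrix.trace] at h1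
    simp only [Fin.sum_univ_two, Matrix.diag_apply, LinearMap.toMatrix_apply] at h1
    rw [hYc0, hYc1] at h1
    simp only [map_add, map_smul, Basis.repr_self, Finsupp.add_apply, Finsupp.smul_apply,
      smul_eq_mul, Finsupp.single_apply] at h1
    norm_num at h1
    linear_combination h1
  by_cases hr : r = 0
  · -- upper triangular
    have ha : a ≠ 0 := by
      intro ha
      apply hYE b
      apply c.ext
      intro i
      fin_cases i
      · show Y (c 0) = (b • E) (c 0)
        rw [hYc0, LinearMap.smul_apply, hE0', ha, hr]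
        simp
      · show Y (c 1) = (b • E) (c 1)
        rw [hYc1, LinearMap.smul_apply, hE1', hd, ha]
        simp
    refine ⟨a⁻¹ • (Y - b • E), R.smul_mem _ (R.sub_mem hY (R.smul_mem _ hE)), hE0', hE1', ?_, ?_⟩
    · rw [LinearMap.smul_apply, LinearMap.sub_apply, LinearMap.smul_apply, hE0', hYc0, hr]
      rw [zero_smul, smul_zero, add_zero, sub_zero, smul_smul, inv_mul_cancel₀ ha, one_smul]
    · rw [LinearMap.smul_apply, LinearMap.sub_apply, LinearMap.smul_apply, hE1', hYc1, hd]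
      have e1 : a⁻¹ • (b • c 0 + -a • c 1 - b • c 0) = -((a⁻¹ * a) • c 1) := by module
      rw [e1, inv_mul_cancel₀ ha, one_smul]
  · have hbr1 := hbr E hE Y hY
    refine ⟨r⁻¹ • ((E ∘ₗ Y - Y ∘ₗ E) + (2 * a) • E),
      R.smul_mem _ (R.add_mem hbr1 (R.smul_mem _ hE)), hE0', hE1', ?_, ?_⟩
    · simp only [LinearMap.smul_apply, LinearMap.add_apply, LinearMap.sub_apply,
        LinearMap.comp_apply]
      rw [hE0', hYc0, map_add, map_smul, map_smul, hE0', hE1', Y.map_zero]
      have e1 : r⁻¹ • (a • (0 : Q) + r • c 0 - 0 + (2 * a) • (0 : Q)) = (r⁻¹ * r) • c 0 := by module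
      rw [e1, inv_mul_cancel₀ hr, one_smul]
    · simp only [LinearMap.smul_apply, LinearMap.add_apply, LinearMap.sub_apply,
        LinearMap.comp_apply]
      rw [hE1', hYc1, map_add, map_smul, map_smul, hE0', hE1', hYc0, hd]
      have e1 : r⁻¹ • (b • (0 : Q) + -a • c 0 - (a • c 0 + r • c 1) + (2 * a) • c 0) =
          -((r⁻¹ * r) • c 1) := by module
      rw [e1, inv_mul_cancel₀ hr, one_smul]

end Pool.Agent.Helper26.B1E
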